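import Pool.Agent.Lib.MP_dba1af_an.Radial

/-!
# Radially monotone vortices in the unit disc

Let `ws(x) = G(|x|²)` with `G` continuous and monotone, a steady state of the 2D Euler equation in
the unit disc.

* `ws` is Lyapunov stable in every rearrangement invariant norm on `L^∞` which is not equivalent to
  the norm of `L^∞`.
* If `|G'| ≤ Λ`, then in the norm of `L^∞` the distance grows at most linearly in time, at a rate which
  tends to zero with the initial distance `δ`: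
  `‖w(t) - ws‖_∞ ≤ δ + 8 Λ √(B (δ + √(2 Λ δ))) t`.
-/

open MeasureTheory Set

namespace Pool.Agent.Results.MP_dba1af_an.MonotoneVortices

open Pool.MP_dba1af

theorem result :
    (∀ G : ℝ → ℝ, Continuous G → (Antitone G ∨ Monotone G) →
      ∀ N : (Plane → ℝ) → ℝ, IsRINorm (volume.restrict disk) N →
        ¬ EquivSup (volume.restrict disk) N → StableIn DiskMotion N (fun x => G (‖x‖ ^ 2))) ∧
    (∀ (Λ : ℝ) (G : ℝ → ℝ), MonotoneProfile Λ G →
      ∀ (w : ℝ → Plane → ℝ) (Φ : ℝ → Plane → Plane), DiskMotion w Φ →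
      ∀ B δ : ℝ, 0 < δ → (∀ s ∈ Icc (0 : ℝ) 1, |G s| ≤ B) →
        (∀ᵐ x ∂(volume.restrict disk), |w 0 x| ≤ B) →
        (∀ᵐ x ∂(volume.restrict disk), |w 0 x - G (‖x‖ ^ 2)| ≤ δ) →
        ∀ t : ℝ, 0 ≤ t → ∀ᵐ x ∂(volume.restrict disk), |w t x - G (‖x‖ ^ 2)| ≤
          δ + 8 * Λ * Real.sqrt (B * (δ + Real.sqrt (2 * Λ * δ))) * t) := by
  refine ⟨fun G hG hM N hN hs => stable_all hG hM hN hs, ?_⟩
  intro Λ G hM w Φ hw B δ hδ hGB hw0 hd t ht
  have hB0 : 0 ≤ B := (abs_nonneg _).trans (hGB 0 ⟨le_rfl, zero_le_one⟩)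
  rcases hB0.lt_or_eq with hB | hB
  · exact sup_radial hM hw hB hδ hGB hw0 hd ht
  · subst hB
    filter_upwards [ae_bound hw hw0 ht, ae_restrict_mem isOpen_disk.measurableSet] with x h1 h2
    have h3 : |G (‖x‖ ^ 2)| ≤ 0 :=
      hGB _ ⟨sq_nonneg _, pow_le_one₀ (norm_nonneg _) (mem_disk.1 h2).le⟩
    have h4 : w t x = 0 := abs_nonpos_iff.1 h1
    have h5 : G (‖x‖ ^ 2) = 0 := abs_nonpos_iff.1 h3
    rw [h4, h5]
    simp [hδ.le]

end Pool.Agent.Results.MP_dba1af_an.MonotoneVortices
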