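import Pool.Agent.Lib.MP_dba1af_an.Euler
import Pool.Agent.Lib.MP_dba1af_an.Scalar
import Pool.Agent.Lib.MP_dba1af_an.Endpoint

/-!
# The sup norm is the only exceptional norm for the stability of steady 2D Euler flows

Let `S` be any family of motions `(w, Φ)` on a finite measure space with sets of arbitrarily small
positive measure, in which the vorticity `w t` is carried by measure preserving maps `Φ t`; the
Yudovich solutions of the 2D Euler equation on a compact surface with its area are such a family, and
the last part proves this for bounded planar domains.  Let `ws` be a bounded state.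

* In all rearrangement invariant norms `N` which are not equivalent to the norm of `L^∞`, stability of
  `ws` for data in balls of `L^∞` is one and the same property: the single observable `∫ w(t) ws` stays
  close to `∫ ws²`.
* For unrestricted data, stability in `N` implies stability in every larger norm `N'` which is not
  equivalent to the norm of `L^∞`.
* If `N` is equivalent to the norm of `L^∞`, then stability in `N` means that the values of `ws` are
  nearly conserved along all trajectories.
-/

open MeasureTheory Set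
open scoped ENNReal

namespace Pool.Agent.Results.MP_dba1af_an.OnlySupNorm

open Pool.MP_dba1af

theorem result :
    (∀ (α : Type) [MeasurableSpace α] (μ : Measure α) [IsFiniteMeasure μ],
      (∀ s : ℝ≥0∞, 0 < s → ∃ E : Set α, MeasurableSet E ∧ 0 < μ E ∧ μ E < s) →
      ∀ S : (ℝ → α → ℝ) → (ℝ → α → α) → Prop, (∀ w Φ, S w Φ → Carried μ w Φ) →
      ∀ ws : α → ℝ, Bdd μ ws →
        (∀ N : (α → ℝ) → ℝ, IsRINorm μ N → ¬ EquivSup μ N →
          (BallStableIn μ S N ws ↔ ObservableStable μ S ws)) ∧
        (∀ N N' : (α → ℝ) → ℝ, IsRINorm μ N → IsRINorm μ N' → ¬ EquivSup μ N' →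
          (∃ C : ℝ, ∀ f, Bdd μ f → N f ≤ C * N' f) → StableIn S N ws → StableIn S N' ws) ∧
        (∀ N : (α → ℝ) → ℝ, IsRINorm μ N → EquivSup μ N →
          (StableIn S N ws ↔ ParticleStable μ S ws))) ∧
    (∀ Ω : Set Plane, IsOpen Ω → Bornology.IsBounded Ω → Ω.Nonempty →
      IsFiniteMeasure (volume.restrict Ω) ∧
      (∀ s : ℝ≥0∞, 0 < s → ∃ E : Set Plane, MeasurableSet E ∧ 0 < (volume.restrict Ω) E ∧
        (volume.restrict Ω) E < s) ∧
      ∀ w Φ, EulerMotion Ω w Φ → Carried (volume.restrict Ω) w Φ) := by
  refine ⟨?_, fun Ω hΩ hb hne => ⟨⟨by rw [Measure.restrict_apply_univ]; exact hb.measure_lt_top⟩,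
    exists_small hΩ hne, fun w Φ h => carried_of_euler h⟩⟩
  intro α _ μ _ hμ S hS ws hws
  refine ⟨fun N hN hs => ?_, fun N N' h1 h2 hs hC hst => stable_of_stable h1 h2 hC hs hS hws hst,
    fun N hN he => (stable_iff_supStable hN he hS hws).trans (supStable_iff hS hws)⟩
  have hRI2 : IsRINorm μ (lpN μ 2) := lpN_isRINorm (by norm_num) (by norm_num)
  have hs2 : ¬ EquivSup μ (lpN μ 2) := lpN_not_equivSup (by norm_num) (by norm_num) hμ
  rw [← ball_two_iff hs2 hS hws]
  exact ⟨ballStable_of_ballStable hN hRI2 hs hs2 hS hws,
    ballStable_of_ballStable hRI2 hN hs2 hs hS hws⟩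

end Pool.Agent.Results.MP_dba1af_an.OnlySupNorm
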