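import Pool.Agent.Lib.MP_dba1af_an.Moment

/-!
# An instability in the sup norm is slow

Let `Ω` be a bounded open set of the plane whose Biot-Savart kernel satisfies `|K(x, y)| ≤ C / |x - y|`
(every smooth bounded domain has such a kernel; for the unit disc this is proved, with `C = 1/π`), let
`ws` be a steady state of the 2D Euler equation with `|∇ws| ≤ L`, and let `w` be a solution,
`|w(0)|, |ws| ≤ B`.  As long as `‖w(s) - ws‖_1 ≤ ρ` one has
`‖w(t) - ws‖_∞ ≤ ‖w(0) - ws‖_∞ + 4 L C √(π B ρ) t`.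
-/

open MeasureTheory Set Filter

namespace Pool.Agent.Results.MP_dba1af_an.SlowInstability

open Pool.MP_dba1af

theorem result :
    (∀ (Ω : Set Plane) (K : Plane → Plane → Plane) (C : ℝ), IsOpen Ω → Bornology.IsBounded Ω →
      0 ≤ C → (∀ x ∈ Ω, Measurable (K x)) →
      (∀ x ∈ Ω, ∀ y ∈ Ω, y ≠ x → ‖K x y‖ ≤ C * ‖x - y‖⁻¹) →
      ∀ (ws : Plane → ℝ) (Φs : ℝ → Plane → Plane), KernelMotion Ω K (fun _ => ws) Φs →
      ∀ L : ℝ, (∀ x ∈ Ω, DifferentiableAt ℝ ws x ∧ ‖fderiv ℝ ws x‖ ≤ L) →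
      ∀ (w : ℝ → Plane → ℝ) (Φ : ℝ → Plane → Plane), KernelMotion Ω K w Φ →
      ∀ B ρ δ T : ℝ, (∀ᵐ x ∂(volume.restrict Ω), |ws x| ≤ B) →
        (∀ᵐ x ∂(volume.restrict Ω), |w 0 x| ≤ B) →
        (∀ t ∈ Icc 0 T, ∫ x in Ω, |w t x - ws x| ≤ ρ) →
        (∀ᵐ x ∂(volume.restrict Ω), |w 0 x - ws x| ≤ δ) →
        ∀ t ∈ Icc 0 T, ∀ᵐ x ∂(volume.restrict Ω),
          |w t x - ws x| ≤ δ + 4 * L * C * Real.sqrt (Real.pi * B * ρ) * t) ∧
    (IsOpen disk ∧ Bornology.IsBounded disk ∧ (∀ x ∈ disk, Measurable (diskKernel x)) ∧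
      ∀ x ∈ disk, ∀ y ∈ disk, y ≠ x → ‖diskKernel x y‖ ≤ Real.pi⁻¹ * ‖x - y‖⁻¹) := by
  refine ⟨?_, isOpen_disk, isBounded_disk, fun x _ => measurable_diskKernel x,
    fun x hx y hy hyx => norm_diskKernel_le (mem_disk.1 hx) (mem_disk.1 hy) hyx⟩
  intro Ω K C hΩ hb hC hKm hK ws Φs hs L hL w Φ hw B ρ δ T hws hw0 hwρ hδ t ht
  have hρ : 0 ≤ ρ := le_trans (integral_nonneg fun x => abs_nonneg _) (hwρ t ht)
  have key : ∀ n : ℕ, ∀ᵐ x ∂(volume.restrict Ω), |w t x - ws x| ≤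
      δ + 4 * L * C * Real.sqrt (Real.pi * (|B| + 1 / ((n : ℝ) + 1)) * (ρ + 1 / ((n : ℝ) + 1))) * t := by
    intro n
    have hn : (0 : ℝ) < 1 / ((n : ℝ) + 1) := Nat.one_div_pos_of_nat
    have hBn : B ≤ |B| + 1 / ((n : ℝ) + 1) := (le_abs_self B).trans (by linarith)
    refine slow_instability hΩ hb hC hKm hK (hs.bdd 0 le_rfl)
      (orthogonal hΩ hs fun x hx => (hL x hx).1) hL hw
      (by have := abs_nonneg B; linarith) (by linarith)
      (hws.mono fun x hx => hx.trans hBn) (hw0.mono fun x hx => hx.trans hBn)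
      (fun s hs' => (hwρ s hs').trans (by linarith)) hδ t ht
  have hlim : Tendsto (fun n : ℕ => δ + 4 * L * C *
      Real.sqrt (Real.pi * (|B| + 1 / ((n : ℝ) + 1)) * (ρ + 1 / ((n : ℝ) + 1))) * t) atTop
      (nhds (δ + 4 * L * C * Real.sqrt (Real.pi * (|B| + 0) * (ρ + 0)) * t)) := by
    have h1 : Tendsto (fun n : ℕ => 1 / ((n : ℝ) + 1)) atTop (nhds 0) :=
      tendsto_one_div_add_atTop_nhds_zero_nat
    have hc : Continuous fun z : ℝ => δ + 4 * L * C *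
        Real.sqrt (Real.pi * (|B| + z) * (ρ + z)) * t := by fun_prop
    exact (hc.tendsto 0).comp h1
  filter_upwards [ae_all_iff.2 key, hws] with x h1 h2
  have hB : 0 ≤ B := (abs_nonneg _).trans h2
  have h3 := ge_of_tendsto' hlim h1
  rwa [add_zero, add_zero, abs_of_nonneg hB] at h3

end Pool.Agent.Results.MP_dba1af_an.SlowInstability
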