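import Pool.Agent.Lib.MP_dba1af_an.RS.RStat

/-!
# Power growth of the sup norm of perturbations of the solid body rotations of the sphere

2D Euler on the round unit sphere.  The solid body rotations have the continuous vorticity
`ws = a x_2` (`x_2` the last of the coordinates `x_0, x_1, x_2`).  The `L²` distance of every smooth
solution to `ws` is constant.  In the sup norm perturbations of size `δ` can grow by a factor
`c δ^(-1/7)`.
-/

namespace Pool.Agent.Results.MP_dba1af_an.SolidBodyRotation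

open Pool.Agent.Lib.RotSphere

theorem result (a : ℝ) (ha : 0 < a) :
    (EulerS (fun _ x => -(a / 2) * x 2) ∧ ∀ x : E, lapS (fun y => -(a / 2) * y 2) x = a * x 2) ∧
    (∀ ψ, EulerS ψ → ∀ t, distSq a ψ t = distSq a ψ 0) ∧
    (∃ c : ℝ, 0 < c ∧ ∀ m : ℕ, 1 ≤ m → ∃ g, IsProfile g ∧
      ∀ δ : ℝ, 0 < δ → δ ≤ c / (m : ℝ) ^ 7 → Grows a g δ ((m : ℝ) ^ 4 / a) (c * m * δ)) ∧
    (∃ c C : ℝ, 0 < c ∧ 0 < C ∧ ∀ δ : ℝ, 0 < δ → δ ≤ c → ∃ g, IsProfile g ∧
      ∃ T : ℝ, 0 < T ∧ T ≤ C * δ ^ (-(4 / 7) : ℝ) ∧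
        Grows a g δ T (c * δ ^ (6 / 7 : ℝ))) :=
  ⟨rotation_steadyS a, fun _ h t => distSq_const ha h t, grows_fixed_r ha, grows_power_r ha⟩

end Pool.Agent.Results.MP_dba1af_an.SolidBodyRotation
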